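import Pool.Agent.H330.EvenQ.Final
import Pool.Agent.H330.EvenQ.ALG
import Pool.Agent.H330.EvenQ.EVEN
import Pool.Agent.H330.EvenQ.SING
import Pool.Agent.H330.EvenQ.REFL
import Pool.Agent.H330.EvenQ.SIEG
import Pool.Agent.H330.EvenQ.CASE3
import Pool.Agent.H330.EvenQ.CASE4a
import Pool.Agent.H330.EvenQ.CASE4c
import Pool.Agent.H330.EvenQ.LF
import Pool.Agent.H330.EvenQ.LSCROSS
import Pool.Agent.H330.EvenQ.LSCHAIN
import Pool.Agent.H330.EvenQ.LS
import Pool.Agent.H330.EvenQ.LSJ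
import Pool.Agent.H330.EvenQ.QK
import Pool.Agent.H330.EvenQ.TRANS
import Pool.Agent.H330.EvenQ.PRIM
import Pool.Agent.H330.EvenQ.EXT
import Pool.Agent.H330.EvenQ.COMB
import Pool.Agent.H330.EvenQ.GLOB
import Pool.Agent.H330.EvenQ.NH
import Pool.Agent.H330.EvenQ.IRR
import Pool.Agent.H330.EvenQ.FIX
import Pool.Agent.H330.EvenQ.TS
import Pool.Agent.H330.EvenQ.PROPW
import Pool.Agent.H330.EvenQ.PROPJ
import Pool.Agent.H330.EvenQ.TOP
import Pool.Agent.H330.EvenQ.DOM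

/-!
# Orthogonal groups in even characteristic have uniform domination number at least three
-/

namespace Pool.Agent.Results.MP_62b3c7_al.EvenQ

open Pool.Agent.H330.EvenQ Module

/-- Let `F` be a finite field of characteristic two, `m ≥ 4` even, `V` an `F`-space of dimension
`2 * m` and `Q` a quadratic form on `V` with nondegenerate polar form (either type), and
`G = [O(V, Q), O(V, Q)]`.  Then `γ_u(G) ≥ 3`; in fact every `s ∈ G` lies in a proper subgroup `H`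
of `G` with `H ∩ gHg⁻¹ ≠ 1` for every `g ∈ G`. -/
theorem result (F V : Type) [Field F] [Finite F] [CharP F 2] [AddCommGroup V] [Module F V]
    [FiniteDimensional F V] (m : ℕ) (hm : 4 ≤ m) (he : Even m) (hV : finrank F V = 2 * m)
    (Q : QuadraticForm F V) (hQ : Nondeg Q) :
    3 ≤ gammaU (Om Q) ∧
      ∀ s : Om Q, ∃ H : Subgroup (Om Q), s ∈ H ∧ H ≠ ⊤ ∧
        ∀ g : Om Q, H ⊓ H.map (MulAut.conj g).toMonoidHom ≠ ⊥ := by
  have hSING := h_SING h_EVEN
  have hSIEG := h_SIEG h_REFL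
  have h3 := h_CASE3 h_ALG h_REFL
  have h4a := h_CASE4a h_ALG h_EVEN
  have h4c := h_CASE4c h_ALG hSIEG
  have hLF := h_LF h_ALG h_EVEN hSING h3 h4a h4c
  have hX := h_LSCROSS h_EVEN hSIEG
  have hC := h_LSCHAIN hSIEG
  have hLS := h_LS h_EVEN hSING h_REFL hSIEG hX hC
  have hLSJ := h_LSJ h_ALG hLS
  have hP := h_PRIM h_ALG hLF hLSJ h_QK h_TRANS
  have hCo := h_COMB h_REFL h_EXT
  have hG := h_GLOB h_ALG hP hCo
  have hTop := h_TOP h_EVEN hSING hSIEG h_IRR hG h_NH (h_FIX h_REFL hSIEG) (h_TS hSIEG)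
    (h_PROPW hSIEG) (h_PROPJ hSIEG)
  exact final hTop h_DOM F V m hm he hV Q hQ

end Pool.Agent.Results.MP_62b3c7_al.EvenQ
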